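import Pool.Agent.MWGP.Stmts

/-!
# Block MWGP, row HHG: two heavy letters commute
-/

namespace Pool.Agent.MWGP.H14

open Pool.Agent.Helper14_MV Pool.Agent.Helper2_MV Pool.Agent.MVO Pool.Agent.MWL Pool.Agent.MWS
  Pool.Agent.MWH

theorem tr_symm {θ : FIC} {k : ℕ} {a b : ℕ → ℕ} {i : ℕ} {s s' : Stt} (h : Tr θ k a b i s s') :
    Tr θ k a b i s' s := RR.symm h

theorem tr_trans {θ : FIC} {k : ℕ} {a b : ℕ → ℕ} {i : ℕ} {s s' s'' : Stt}
    (h : Tr θ k a b i s s') (h' : Tr θ k a b i s' s'') : Tr θ k a b i s s'' := θ.trans h h'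

/-- **HHG** -/
theorem hhg (hAll : MWHP.AllStmt) (hPin : MWHQ.PinStmt) : HhgStmt := by
  intro n β hβ k a b i hv ha hb
  have h0 : Vd 0 (vc [2]) (vc [2]) 0 := by
    refine ⟨le_rfl, by decide, by decide, ?_, by decide, by decide⟩
    intro j hj hj0
    exact absurd (Nat.le_zero.1 hj) hj0
  have ht : Tr β 0 (vc [2]) (vc [2]) 0 Stt.xy Stt.yx := hβ.hh
  have h1 : Tr β k a b i Stt.xy Stt.yx := by
    refine hPin n β β hβ.toBaseH (fun _ _ hh => hh) 0 k (fun _ => i) (vc [2]) (vc [2]) a b 0
      (fun j hj => absurd hj (Nat.not_lt_zero j)) hv.ik h0 hv ?_ ?_ ?_ Stt.xy Stt.yx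
      (fun h => by cases h) (fun h => by cases h) ht
    · intro j _
      exact ⟨fun _ => by show a i ≠ 0; omega, fun _ => ha, fun _ => by show b i ≠ 0; omega,
        fun _ => hb⟩
    · constructor
      · intro h; exact absurd h (by decide)
      · intro h
        have h' : a i = 1 := h
        omega
    · constructor
      · intro h; exact absurd h (by decide)
      · intro h
        have h' : b i = 1 := h
        omega
  obtain ⟨h2, h3⟩ := hAll n β β hβ.toBaseH (fun _ _ hh => hh) k a b i hv (Or.inl ha) h1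
  have hrefl : ∀ s : Stt, Tr β k a b i s s := fun s => RR.refl _
  intro s s' _ _
  cases s <;> cases s' <;> first
    | exact hrefl _
    | exact h1
    | exact tr_symm h1
    | exact h2
    | exact tr_symm h2
    | exact h3
    | exact tr_symm h3

end Pool.Agent.MWGP.H14
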